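import Pool.Agent.ORB.SpecAABridge

/-!
MP_7b3af4_nt: primes avoiding orbit collisions. For arbitrary rational functions of degree at least two over a number
field the answer is yes for almost all tuples of integral targets (or targets with a fixed denominator), ordered by
the size of the conjugates, and for all starting points; also together with a fixed tuple for which the answer is yes.
All definitions are in `Pool.Agent.ORB.Spec` and `Pool.Agent.ORB.SpecAA`.
-/

namespace Pool.Agent.Results.MP_7b3af4_nt.AlmostAllIntegral

open NumberField IsDedekindDomain Polynomial Pool.Agent.ORB.Spec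

universe u

/-- Let `K` be a number field, `f_i ∈ K(x)` of degree at least two and `β_i ∈ ℙ¹(K)` a finite tuple such that
`Solved f β` holds: for the indices `i` with a target `β_i` which is not preperiodic and the starting points
`f_i (β_i)` the answer to the question is yes. Let `R_k ∈ K(x)` be arbitrary rational functions of degree at least
two, and `s` a nonzero integer of `K`. Then for almost all tuples `b` of integers of `K`, ordered by the size of the
conjugates, the answer to the question is yes for the maps `f_i`, `R_k`, the targets `β_i`, `b_k / s` and all
starting points. -/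
theorem result {K : Type u} [Field K] [NumberField K] {ι κ : Type} [Finite ι] [Fintype κ]
    (f : ι → RatFunc K) (hf : ∀ i, 2 ≤ rdeg (f i)) (β : ι → OnePoint K) (hs : Solved f β)
    (R : κ → RatFunc K) (hR : ∀ k, 2 ≤ rdeg (R k)) (s : 𝓞 K) (hs0 : s ≠ 0) :
    (∀ X : ℝ, (ConjBox κ K X).Finite) ∧
    Filter.Tendsto (fun X : ℝ => ({b | b ∈ ConjBox κ K X ∧ ¬ GoodTargets (Sum.elim f R)
        (Sum.elim β (fun k => (((b k : K) / (s : K) : K) : OnePoint K)))}.ncard : ℝ) /
      ((ConjBox κ K X).ncard : ℝ)) Filter.atTop (nhds 0) :=
  almost_all_conj f hf β hs R hR s hs0

end Pool.Agent.Results.MP_7b3af4_nt.AlmostAllIntegral
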