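import Pool.Agent.ORB.SpecAABridge

/-!
MP_7b3af4_nt: primes avoiding orbit collisions. For arbitrary rational functions of degree at least two over a number
field the answer is yes for almost all tuples of targets, ordered by height, and for all starting points; also
together with a fixed tuple for which the answer is yes. All definitions are in `Pool.Agent.ORB.Spec` and
`Pool.Agent.ORB.SpecAA`.
-/

namespace Pool.Agent.Results.MP_7b3af4_nt.AlmostAllTargets

open NumberField IsDedekindDomain Polynomial Pool.Agent.ORB.Spec

universe u

/-- Let `K` be a number field, `f_i ∈ K(x)` of degree at least two and `β_i ∈ ℙ¹(K)` a finite tuple such that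
`Solved f β` holds: for the indices `i` with a target `β_i` which is not preperiodic and the starting points
`f_i (β_i)` the answer to the question is yes. Let `R_k ∈ K(x)` be arbitrary rational functions of degree at least
two. Then for almost all tuples `c` of elements of `K`, ordered by height, the answer to the question is yes for the
maps `f_i`, `R_k`, the targets `β_i`, `c_k` and all starting points. -/
theorem result {K : Type u} [Field K] [NumberField K] {ι κ : Type} [Finite ι] [Fintype κ]
    (f : ι → RatFunc K) (hf : ∀ i, 2 ≤ rdeg (f i)) (β : ι → OnePoint K) (hs : Solved f β)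
    (R : κ → RatFunc K) (hR : ∀ k, 2 ≤ rdeg (R k)) :
    (∀ X : ℝ, (HeightBox κ K X).Finite) ∧
    Filter.Tendsto (fun X : ℝ => ({c | c ∈ HeightBox κ K X ∧
        ¬ GoodTargets (Sum.elim f R) (Sum.elim β (fun k => (c k : OnePoint K)))}.ncard : ℝ) /
      ((HeightBox κ K X).ncard : ℝ)) Filter.atTop (nhds 0) :=
  almost_all_height f hf β hs R hR

/-- the hypothesis `Solved` holds for the empty tuple -/
theorem solved_empty {K : Type u} [Field K] [NumberField K] (f : Empty → RatFunc K) (β : Empty → OnePoint K) :
    Solved f β := by
  refine ⟨1, one_pos, 0, fun x _ => ?_⟩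
  rw [one_mul]
  refine le_of_eq ?_
  congr 2
  ext v
  refine ⟨fun h => ⟨fun i => i.1.elim, h⟩, fun h => h.2⟩

end Pool.Agent.Results.MP_7b3af4_nt.AlmostAllTargets
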