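import Pool.Agent.ORB.SpecGClose

/-!
MP_7b3af4_nt: primes avoiding orbit collisions, for tuples of rational functions over a number field. Three kinds
of indices are allowed at the same time: `Q` (preperiodic `α_i` or `β_i`; unicritical maps with a local condition;
eventually stable pairs of a polynomial and a target, for unicritical polynomials of prime power degree and for
polynomials of degree prime to 6 with critical points in general position; polynomials of arbitrary degree with critical
points in general position and a local condition at a prime which does not divide the degree; polynomials of odd prime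
degree `p` which are congruent to `a x ^ p + c` modulo a prime above `p`), `A` (targets which are exceptional
modulo a prime, for example targets of polynomials which are not integral at a good prime), and blocks with coprime
exponents. All definitions are in `Pool.Agent.ORB.Spec`.
-/

namespace Pool.Agent.Results.MP_7b3af4_nt.FreeIndices

open NumberField IsDedekindDomain Polynomial Pool.Agent.ORB.Spec

universe u

/-- Let `K` be a number field, `f_i ∈ K(x)` of degree at least two, `α_i, β_i ∈ ℙ¹(K)` with `f_i^n(α_i) ≠ β_i`
for all `i` and `n ≥ 0`. Suppose that every index is of one of three kinds.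

(Q) `α_i` is preperiodic, or `β_i` is preperiodic, or over a finite extension `L` of `K` the map `f_i` is conjugate
to an iterate of a polynomial `h ∈ L[x]`, the point corresponding to `β_i` is `b ∈ L`, and (Q1) or (Q2) holds.

(Q1) `Unicritical`: `h = x^d + c` and `UniCond L d c b` holds: `c ≠ 0`, `(d, c) ≠ (2, -2)`, and `L` has a prime `v`
with (1) `v ∣ d` and `v(c) ≥ 0`, or (2) `v(c) ≥ 0 > v(b)`, or (3) `v(c), v(b) > 0`; here `d` is a prime, or `d` is a
prime power and `0` is not preperiodic, or `d` is arbitrary and `v` does not divide `d` (additive notation for `v`).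

(Q2) `StableConj`: `(h, b)` satisfies `GoodPair`, that is, (Q2a), (Q2b) or (Q2c) holds.

(Q2a) `h = x^d + c` with a prime power `d` and `0` is not preperiodic; or the degree of `h` is prime to 6, the critical
points of `h` with infinite orbit are simple zeros of `h'` or zeros of `h'` of even multiplicity, at least one of them
is a simple zero, and the simple ones have different images under `h` (`CritGeneral`). And the pair `(h, b)` is
eventually stable (the number of the irreducible factors of `h^n(x) - b` is bounded), or it satisfies `LocalAt` at some
prime `v` of `L`: the polynomial `h` is integral at `v` with a unit as leading coefficient, and `b` is not integral at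
`v`, or `b` is periodic modulo `v` and `h` is totally ramified modulo `v` at all points of the orbit of `b`. By
`local_stable_of_prime_power` the last condition holds for all `b` if `deg h = p^k` and `h` is congruent to
`a x^(p^k) + c` modulo a prime above `p`, with a unit `a`.

(Q2b) `LocalAt` holds at a prime `v` at which the degree of `h` is a unit, and the degree of `h` is odd and `h`
satisfies `CritGeneral`; or the degree of `h` is arbitrary and `h` satisfies `CritGeneral2`: the critical points with
infinite orbit are simple zeros of `h'` or zeros of `h'` of even multiplicity, at least one of them is a simple zero,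
the simple ones have different second images `h(h(c))`, and their images `h(c)` are not zeros of `h'`; see
`local_trinomials`.

(Q2c) the degree of `h` is an odd prime `p`, `h` is congruent to `a x^p + c` modulo a prime above `p`, with a unit `a`
(`WildPoly`), and `h` satisfies `CritGeneral`; there is no condition on `b`. See `trinomials`.

(A) there is a prime `v` of `K` at which all `f_j`, `j ∉ Q`, have good reduction with `1, ..., deg f_j` units, and
modulo which, over an algebraic closure of the residue field, `f_i ∘ f_i` takes the value `β_i` only at `β_i`; for a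
polynomial `f_i` this is satisfied if `β_i ∈ K` is not integral at `v`, see `exceptional_of_not_integral`.

(B) The other indices are divided into blocks with pairwise coprime integers `E_j` such that, for `i` in block `j`,
`f_i` is a composition of rational functions each of which is of a degree `d` such that all primes `≤ d` divide
`E_j`, or `x^d` such that all primes dividing `d` divide `E_j`, or `T_d` such that all primes dividing `2 d` divide
`E_j`; each block is of one of four kinds: the maps with wandering `β_i` are conjugate over one number field to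
iterates of one map `h`, and the `β_i` correspond to points in one grand orbit of `h`; or some prime of some
extension is a prime of good reduction of these maps modulo which no such `β_i` is periodic; or the answer is yes for
the tuple of the `f_i` with wandering `β_i` and the starting points `f_i(β_i)` (`SolvedBlock`); or all `f_i` are
conjugate over an algebraic closure to `x^d`, `x^(-d)`, `T_d` or `-T_d`. With one block and `E = 0` there is no
condition on the exponents, see `reduction`.

Then the set of the primes `v` of `K` such that `f_i^n(α_i)` and `β_i` have different reductions modulo `v`, for all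
`i` and `n ≥ 0`, has positive lower density. -/
theorem result {K : Type u} [Field K] [NumberField K] {ι J : Type} [Finite ι] [Finite J]
    (f : ι → RatFunc K) (hf : ∀ i, 2 ≤ rdeg (f i)) (α β : ι → OnePoint K)
    (hαβ : ∀ i n, (ract (RingHom.id K) (f i))^[n] (α i) ≠ β i) (Q A : Set ι)
    (hQ : ∀ i ∈ Q, Preper (f i) (α i) ∨ Preper (f i) (β i) ∨ Unicritical (f i) (β i) ∨ StableConj (f i) (β i))
    (hA : ∀ i ∈ A, ∃ v : HeightOneSpectrum (𝓞 K), ExcMod v (f i) (β i) ∧ ∀ j, j ∉ Q → GoodTame v (f j))
    (blk : ι → J) (E : J → ℕ) (hE : ∀ j j', j ≠ j' → Nat.Coprime (E j) (E j'))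
    (hexp : ∀ i, i ∉ Q → i ∉ A → HasExp (E (blk i)) (f i))
    (hblk : ∀ j, OrbitBlock (fun i : {i // (i ∉ Q ∧ i ∉ A) ∧ blk i = j} => f i.1)
        (fun i : {i // (i ∉ Q ∧ i ∉ A) ∧ blk i = j} => β i.1) ∨
      PrimeBlock (fun i : {i // (i ∉ Q ∧ i ∉ A) ∧ blk i = j} => f i.1)
        (fun i : {i // (i ∉ Q ∧ i ∉ A) ∧ blk i = j} => β i.1) ∨
      SolvedBlock (fun i : {i // (i ∉ Q ∧ i ∉ A) ∧ blk i = j} => f i.1)
        (fun i : {i // (i ∉ Q ∧ i ∉ A) ∧ blk i = j} => β i.1) ∨
      ∀ i, i ∉ Q → i ∉ A → blk i = j → TorusMap (algebraMap K (AlgebraicClosure K)) (f i)) :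
    PosDensity (AvoidSet f α β) :=
  free_indices_gen f hf α β hαβ Q A hQ hA blk E hE hexp hblk

/-- Corollary: the indices of kinds (Q) and (A) are free. If the answer is yes for the other indices, with starting
points `f_i(β_i)`, it is yes for the whole tuple and all starting points. -/
theorem reduction {K : Type u} [Field K] [NumberField K] {ι : Type} [Finite ι]
    (f : ι → RatFunc K) (hf : ∀ i, 2 ≤ rdeg (f i)) (α β : ι → OnePoint K)
    (hαβ : ∀ i n, (ract (RingHom.id K) (f i))^[n] (α i) ≠ β i) (Q A : Set ι)
    (hQ : ∀ i ∈ Q, Preper (f i) (α i) ∨ Preper (f i) (β i) ∨ Unicritical (f i) (β i) ∨ StableConj (f i) (β i))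
    (hA : ∀ i ∈ A, ∃ v : HeightOneSpectrum (𝓞 K), ExcMod v (f i) (β i) ∧ ∀ j, j ∉ Q → GoodTame v (f j))
    (hB : PosDensity (AvoidSet (fun i : {i // i ∉ Q ∧ i ∉ A} => f i.1)
      (fun i => ract (RingHom.id K) (f i.1) (β i.1)) (fun i => β i.1))) :
    PosDensity (AvoidSet f α β) :=
  free_reduction f hf α β hαβ Q A hQ hA hB

/-- in (A): a target of a polynomial which is not integral at a prime of good reduction is exceptional modulo this
prime -/
theorem exceptional_of_not_integral {K : Type u} [Field K] [NumberField K] {v : HeightOneSpectrum (𝓞 K)} (p : K[X])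
    (hp : 1 ≤ p.natDegree) (hg : GoodRed (RingHom.id K) v (algebraMap K[X] (RatFunc K) p)) {b : K}
    (hb : 1 < v.valuation K b) : ExcMod v (algebraMap K[X] (RatFunc K) p) (b : OnePoint K) :=
  exc_of_not_integral p hp hg hb

/-- in (Q2): if the degree of `h` is a power of `p`, and `h` is congruent to `a x ^ (p ^ k) + c` modulo a prime above
`p`, with `a` a unit, then all pairs `(h, b)` satisfy the local condition -/
theorem local_stable_of_prime_power {L : Type u} [Field L] [NumberField L] {h : L[X]} (hd : 2 ≤ h.natDegree)
    {p k : ℕ} (hp : p.Prime) (hk : h.natDegree = p ^ k) (v : HeightOneSpectrum (𝓞 L))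
    (hv : v.valuation L (p : L) < 1) (h1 : v.valuation L h.leadingCoeff = 1)
    (h2 : ∀ i, 0 < i → i < h.natDegree → v.valuation L (h.coeff i) < 1) (h3 : v.valuation L (h.coeff 0) ≤ 1)
    (b : L) : LocalStable h b :=
  localStable_of_pow hd hp hk v hv h1 h2 h3 b

/-- Corollary: any number of trinomials `f_i = x ^ p_i + p_i a_i x + c_i`, with primes `p_i`, and `a_i` and `c_i`
integral at a prime above `p_i`, which have a critical point with infinite orbit (that is, which are not
post-critically finite), and all points `α_i`, `β_i` with `f_i^n(α_i) ≠ β_i` for all `n ≥ 0`. For `p_i = 2` these are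
quadratic polynomials. -/
theorem trinomials {K : Type u} [Field K] [NumberField K] {ι : Type} [Finite ι] (p : ι → ℕ) (a c : ι → K)
    (hp : ∀ i, (p i).Prime)
    (hv : ∀ i, ∃ v : HeightOneSpectrum (𝓞 K), v.valuation K (p i : K) < 1 ∧ v.valuation K (a i) ≤ 1 ∧
      v.valuation K (c i) ≤ 1)
    (hw : ∀ i, ∃ z : AlgebraicClosure K,
      aeval z (derivative (X ^ p i + C ((p i : K) * a i) * X + C (c i))) = 0 ∧
      Wandering (X ^ p i + C ((p i : K) * a i) * X + C (c i)) z)
    (α β : ι → OnePoint K)
    (hαβ : ∀ i n, (ract (RingHom.id K) (algebraMap K[X] (RatFunc K) (X ^ p i + C ((p i : K) * a i) * X +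
      C (c i))))^[n] (α i) ≠ β i) :
    PosDensity (AvoidSet (fun i => algebraMap K[X] (RatFunc K) (X ^ p i + C ((p i : K) * a i) * X + C (c i)))
      α β) :=
  free_prime p a c hp hv hw α β hαβ

/-- Corollary: any number of trinomials `f_i = x ^ d_i + d_i a_i x + c_i` of degree `d_i ≥ 2` with `a_i ≠ 0`, which are
not post-critically finite, with targets `b_i ∈ K` such that at a prime at which `d_i` is a unit, `a_i` and `c_i` are
integral and `b_i` is not integral, or `a_i`, `c_i` and `b_i` are divisible by the prime; all points `α_i` with
`f_i^n(α_i) ≠ b_i` for all `n ≥ 0`. If `d_i` is even we suppose that there is also a prime at which `d_i` is a unit,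
`a_i` is integral, and `a_i` is smaller than `c_i ^ (d_i - 1)`, for example a prime which divides `a_i` but not `c_i`,
or which divides the denominator of `c_i`. -/
theorem local_trinomials {K : Type u} [Field K] [NumberField K] {ι : Type} [Finite ι] (d : ι → ℕ) (a c b : ι → K)
    (hd : ∀ i, 2 ≤ d i) (ha : ∀ i, a i ≠ 0)
    (hs : ∀ i, Odd (d i) ∨ ∃ w : HeightOneSpectrum (𝓞 K), w.valuation K (d i : K) = 1 ∧ w.valuation K (a i) ≤ 1 ∧
      w.valuation K (a i) < w.valuation K (c i) ^ (d i - 1))
    (hv : ∀ i, ∃ v : HeightOneSpectrum (𝓞 K), v.valuation K (d i : K) = 1 ∧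
      ((v.valuation K (a i) ≤ 1 ∧ v.valuation K (c i) ≤ 1 ∧ 1 < v.valuation K (b i)) ∨
      (v.valuation K (a i) < 1 ∧ v.valuation K (c i) < 1 ∧ v.valuation K (b i) < 1)))
    (hw : ∀ i, ∃ z : AlgebraicClosure K,
      aeval z (derivative (X ^ d i + C ((d i : K) * a i) * X + C (c i))) = 0 ∧
      Wandering (X ^ d i + C ((d i : K) * a i) * X + C (c i)) z)
    (α : ι → OnePoint K)
    (hαβ : ∀ i n, (ract (RingHom.id K) (algebraMap K[X] (RatFunc K) (X ^ d i + C ((d i : K) * a i) * X +
      C (c i))))^[n] (α i) ≠ (b i : OnePoint K)) :
    PosDensity (AvoidSet (fun i => algebraMap K[X] (RatFunc K) (X ^ d i + C ((d i : K) * a i) * X + C (c i)))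
      α (fun i => (b i : OnePoint K))) :=
  free_all d a c b hd ha hs hv hw α hαβ

end Pool.Agent.Results.MP_7b3af4_nt.FreeIndices
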