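import Pool.Agent.ORB.ThmIIb

/-!
MP_7b3af4_nt: primes avoiding orbit collisions, for polynomials over a number field with a real
embedding and points `β` without infinite real backward orbits which leave the cycles.
-/

namespace Pool.Agent.Results.MP_7b3af4_nt.RealPlace

open NumberField IsDedekindDomain Polynomial Pool.Agent.ORB

universe u

/-- Let `K` be a number field with a real embedding `φ`, `f_i ∈ K[x]` of degree at least two,
`α_i, β_i ∈ ℙ¹(K)` with `f_i^n(α_i) ≠ β_i` for all `i` and `n ≥ 0`. Suppose that for each finite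
`β_i` either there is `N` such that all points of `f_i^N(ℝ)` with forward orbit through `φ(β_i)` are
periodic (for instance `φ(β_i)` is not in `f_i^N(ℝ)`), or `f_i` has even degree and no real fixed
point. Then the set of the primes `v` of `K` such that `f_i^n(α_i)` and `β_i` have different
reductions modulo `v`, for all `i` and `n ≥ 0`, has positive lower density. -/
theorem result {K : Type u} [Field K] [NumberField K] (φ : K →+* ℝ) {ι : Type} [Finite ι]
    (f : ι → K[X]) (hf : ∀ i, 2 ≤ (f i).natDegree) (α β : ι → OnePoint K)
    (hαβ : ∀ i n, (act (f i))^[n] (α i) ≠ β i)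
    (hβ : ∀ i (b : K), β i = (b : OnePoint K) →
      (∃ N : ℕ, ∀ (x : ℝ) (m : ℕ), (fun y => ((f i).map φ).eval y)^[m + N] x = φ b →
        (fun y => ((f i).map φ).eval y)^[N] x ∈
          Function.periodicPts (fun y => ((f i).map φ).eval y)) ∨
      (Even (f i).natDegree ∧ ∀ x : ℝ, ((f i).map φ).eval x ≠ x)) :
    PosDensity (AvoidSet f α β) := by
  refine thmIIb φ f hf α β hαβ (fun i b hb => ?_)
  rcases hβ i b hb with ⟨N, hN⟩ | ⟨he, hfix⟩
  · refine ⟨N, fun x m hx => ?_⟩
    rw [← Function.iterate_add_apply] at hx
    exact hN x m hx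
  · have h1 : ((f i).map φ).natDegree = (f i).natDegree := natDegree_map φ
    obtain ⟨N, hN⟩ := eventual_image (by rw [h1]; exact he) (by rw [h1]; exact hf i) hfix (φ b)
    refine ⟨N, fun x m hx => ?_⟩
    rw [← Function.iterate_add_apply, add_comm, Function.iterate_add_apply] at hx
    exact absurd hx (hN _)

end Pool.Agent.Results.MP_7b3af4_nt.RealPlace
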